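import Mathlib

set_option autoImplicit false

/-!
# Counting lemmas: residue classes in intervals, square divisors in three ranges
-/

namespace Pool.Agent.TH861.SC

open Finset

/-- Integers in an interval of length `D`, pairwise congruent modulo `k`. -/
theorem card_of_dvd {ι : Type*} (F : Finset ι) (f : ι → ℤ) (hf : Set.InjOn f F) {k : ℕ}
    (hk : 0 < k) {lo D : ℝ} (hD : 0 ≤ D) (h : ∀ i ∈ F, lo ≤ f i ∧ (f i : ℝ) ≤ lo + D)
    (hd : ∀ i ∈ F, ∀ j ∈ F, (k : ℤ) ∣ f i - f j) : (F.card : ℝ) ≤ D / k + 1 := by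
  classical
  rcases F.eq_empty_or_nonempty with h0 | hne
  · rw [h0]; simp; positivity
  have hk' : (0 : ℝ) < k := by exact_mod_cast hk
  obtain ⟨i0, hi0, hmin⟩ := F.exists_min_image f hne
  have hsub : F.card ≤ (Finset.Icc (0 : ℤ) ⌊D / k⌋).card := by
    refine Finset.card_le_card_of_injOn (fun i => (f i - f i0) / k) ?_ ?_
    · intro i hi
      have hi' : i ∈ F := hi
      have h1 := hmin i hi'
      simp only [Finset.coe_Icc, Set.mem_Icc]
      refine ⟨Int.ediv_nonneg (by omega) (by positivity), ?_⟩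
      rw [Int.le_floor]
      obtain ⟨c, hc⟩ := hd i hi' i0 hi0
      have e : (f i - f i0) / k = c := by
        rw [hc, Int.mul_ediv_cancel_left _ (by exact_mod_cast hk.ne')]
      rw [e, le_div_iff₀ hk']
      have h2 : (c : ℝ) * k = f i - f i0 := by
        have : (f i : ℝ) - f i0 = k * c := by exact_mod_cast hc
        rw [this]; ring
      rw [h2]
      linarith [(h i hi').2, (h i0 hi0).1]
    · intro i hi j hj hij
      have hi' : i ∈ F := hi
      have hj' : j ∈ F := hj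
      simp only at hij
      obtain ⟨c, hc⟩ := hd i hi' i0 hi0
      obtain ⟨c', hc'⟩ := hd j hj' i0 hi0
      rw [hc, hc', Int.mul_ediv_cancel_left _ (by exact_mod_cast hk.ne'),
        Int.mul_ediv_cancel_left _ (by exact_mod_cast hk.ne')] at hij
      apply hf hi hj
      have : f i - f i0 = f j - f i0 := by rw [hc, hc', hij]
      omega
  have h1 : (0 : ℤ) ≤ ⌊D / k⌋ := Int.floor_nonneg.2 (by positivity)
  have h2 : ((Finset.Icc (0 : ℤ) ⌊D / k⌋).card : ℝ) ≤ D / k + 1 := by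
    rw [Int.card_Icc]
    have : (((⌊D / k⌋ + 1 - 0).toNat : ℤ) : ℝ) = (⌊D / k⌋ : ℝ) + 1 := by
      rw [Int.toNat_of_nonneg (by omega)]
      push_cast; ring
    have h3 : (((⌊D / k⌋ + 1 - 0).toNat : ℕ) : ℝ) = (⌊D / k⌋ : ℝ) + 1 := by
      exact_mod_cast this
    rw [h3]
    have := Int.floor_le (D / (k : ℝ))
    linarith
  have h3 : (F.card : ℝ) ≤ (Finset.Icc (0 : ℤ) ⌊D / k⌋).card := by exact_mod_cast hsub
  linarith

theorem sum_inv_sq {a b : ℕ} (ha : 0 < a) : ∑ k ∈ Ioc a b, (1 : ℝ) / (k : ℝ) ^ 2 ≤ 1 / a := by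
  rcases le_or_gt a b with h | h
  · have := sum_Ioc_inv_sq_le_sub (α := ℝ) ha.ne' h
    have h2 : (0 : ℝ) ≤ (b : ℝ)⁻¹ := by positivity
    have h3 : ∑ k ∈ Ioc a b, (1 : ℝ) / (k : ℝ) ^ 2 = ∑ k ∈ Ioc a b, ((k : ℝ) ^ 2)⁻¹ :=
      Finset.sum_congr rfl fun k _ => by rw [one_div]
    rw [h3, one_div]
    linarith
  · rw [Finset.Ioc_eq_empty (by omega)]
    simp

theorem sum_range {a b : ℕ} (ha : 0 < a) {D : ℝ} (hD : 0 ≤ D) :
    ∑ k ∈ Ioc a b, (D / ((k ^ 2 : ℕ) : ℝ) + 1) ≤ D / a + b := by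
  rw [Finset.sum_add_distrib]
  have h1 : ∑ k ∈ Ioc a b, D / ((k ^ 2 : ℕ) : ℝ) = D * ∑ k ∈ Ioc a b, (1 : ℝ) / (k : ℝ) ^ 2 := by
    rw [Finset.mul_sum]
    refine Finset.sum_congr rfl fun k _ => ?_
    push_cast
    ring
  rw [h1]
  have h2 := mul_le_mul_of_nonneg_left (sum_inv_sq (b := b) ha) hD
  have h3 : ∑ k ∈ Ioc a b, (1 : ℝ) ≤ b := by
    rw [Finset.sum_const, Nat.card_Ioc, nsmul_eq_mul, mul_one]
    exact_mod_cast Nat.sub_le b a
  have h4 : D * (1 / (a : ℝ)) = D / a := by ring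
  linarith

/-- The union bound over a range of moduli. -/
theorem union_bound {ι : Type*} (F : Finset ι) (a b : ℕ) (P : ℕ → ι → Prop)
    [DecidableEq ι] [∀ k, DecidablePred (P k)] [DecidablePred fun x => ∃ k ∈ Ioc a b, P k x]
    (g : ℕ → ℝ) (h : ∀ k ∈ Ioc a b, ((F.filter (P k)).card : ℝ) ≤ g k) :
    ((F.filter fun x => ∃ k ∈ Ioc a b, P k x).card : ℝ) ≤ ∑ k ∈ Ioc a b, g k := by
  have h1 : F.filter (fun x => ∃ k ∈ Ioc a b, P k x) ⊆ (Ioc a b).biUnion fun k => F.filter (P k) := by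
    intro x hx
    rw [Finset.mem_filter] at hx
    obtain ⟨hx, k, hk, hP⟩ := hx
    rw [Finset.mem_biUnion]
    exact ⟨k, hk, Finset.mem_filter.2 ⟨hx, hP⟩⟩
  have h2 := (Finset.card_le_card h1).trans Finset.card_biUnion_le
  calc ((F.filter fun x => ∃ k ∈ Ioc a b, P k x).card : ℝ)
      ≤ ((∑ k ∈ Ioc a b, (F.filter (P k)).card : ℕ) : ℝ) := by exact_mod_cast h2
    _ = ∑ k ∈ Ioc a b, ((F.filter (P k)).card : ℝ) := by push_cast; rfl
    _ ≤ _ := Finset.sum_le_sum h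

/-- Small moduli, in one row. -/
theorem row_small {F : Finset ℤ} {lo lam : ℝ} (hlam : 0 ≤ lam)
    (hF : ∀ i ∈ F, lo ≤ (i : ℝ) ∧ (i : ℝ) ≤ lo + lam) {g : ℤ → ℤ} {c : ℤ}
    (hg : ∀ i j, g i - g j = c * (i - j)) {q : ℕ} {a b : ℕ} (ha : 0 < a)
    (hc : ∀ p : ℕ, p.Prime → ¬ p ∣ q → ¬ (p : ℤ) ∣ c)
    [DecidablePred fun i => ∃ p ∈ Ioc a b, p.Prime ∧ ¬ p ∣ q ∧ ((p ^ 2 : ℕ) : ℤ) ∣ g i] :
    ((F.filter fun i => ∃ p ∈ Ioc a b, p.Prime ∧ ¬ p ∣ q ∧ ((p ^ 2 : ℕ) : ℤ) ∣ g i).card : ℝ) ≤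
      lam / a + b := by
  classical
  refine le_trans (union_bound F a b (fun p i => p.Prime ∧ ¬ p ∣ q ∧ ((p ^ 2 : ℕ) : ℤ) ∣ g i)
    (fun k => lam / ((k ^ 2 : ℕ) : ℝ) + 1) ?_) (sum_range ha hlam)
  intro p hp
  rw [Finset.mem_Ioc] at hp
  by_cases hpp : p.Prime ∧ ¬ p ∣ q
  · refine card_of_dvd (lo := lo) _ (fun i => i) (fun _ _ _ _ h => h) (pow_pos (by omega) 2)
      hlam ?_ ?_
    · intro i hi
      exact hF i (Finset.mem_filter.1 hi).1
    · intro i hi j hj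
      have h1 := (Finset.mem_filter.1 hi).2.2.2
      have h2 := (Finset.mem_filter.1 hj).2.2.2
      have h3 := dvd_sub h1 h2
      rw [hg] at h3
      refine IsCoprime.dvd_of_dvd_mul_left ?_ h3
      push_cast
      refine IsCoprime.pow_left ?_
      exact (Nat.prime_iff_prime_int.1 hpp.1).irreducible.coprime_iff_not_dvd.2 (hc p hpp.1 hpp.2)
  · have : F.filter (fun i => p.Prime ∧ ¬ p ∣ q ∧ ((p ^ 2 : ℕ) : ℤ) ∣ g i) = ∅ := by
      rw [Finset.filter_eq_empty_iff]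
      intro i _ h
      exact hpp ⟨h.1, h.2.1⟩
    rw [this]
    simp
    positivity

/-- Middle moduli, all rows together. -/
theorem all_mid {ι : Type*} (S : Finset ι) (f : ι → ℤ) (hf : Set.InjOn f S) {lo D : ℝ}
    (hD : 0 ≤ D) (h : ∀ x ∈ S, lo ≤ (f x : ℝ) ∧ (f x : ℝ) ≤ lo + D) {a b : ℕ} (ha : 0 < a)
    [DecidablePred fun x => ∃ p ∈ Ioc a b, ((p ^ 2 : ℕ) : ℤ) ∣ f x] :
    ((S.filter fun x => ∃ p ∈ Ioc a b, ((p ^ 2 : ℕ) : ℤ) ∣ f x).card : ℝ) ≤ D / a + b := by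
  classical
  refine le_trans (union_bound S a b (fun p x => ((p ^ 2 : ℕ) : ℤ) ∣ f x)
    (fun k => D / ((k ^ 2 : ℕ) : ℝ) + 1) ?_) (sum_range ha hD)
  intro p hp
  rw [Finset.mem_Ioc] at hp
  refine card_of_dvd (lo := lo) _ f (hf.mono (by
    intro x hx; exact (Finset.mem_filter.1 hx).1)) (pow_pos (by omega) 2) hD ?_ ?_
  · intro x hx
    exact h x (Finset.mem_filter.1 hx).1
  · intro x hx y hy
    exact dvd_sub (Finset.mem_filter.1 hx).2 (Finset.mem_filter.1 hy).2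

/-- Large moduli, in one row. -/
theorem row_large {ι : Type*} (F : Finset ι) (f : ι → ℤ) (hf : Set.InjOn f F) {K : ℕ}
    {N W : ℝ} (hN : 0 ≤ N) (hW : W ≤ 2 * K) (hK : 0 < K)
    (h1 : ∀ x ∈ F, 0 < f x ∧ (f x : ℝ) ≤ N) (h2 : ∀ x ∈ F, ∀ y ∈ F, |(f x : ℝ) - f y| ≤ W)
    (h3 : ∀ x ∈ F, ∃ p : ℕ, K < p ∧ ((p ^ 2 : ℕ) : ℤ) ∣ f x) :
    (F.card : ℝ) ≤ N / (K : ℝ) ^ 2 := by
  classical
  choose! p hp hpd using h3
  have hKr : (0 : ℝ) < K := by exact_mod_cast hK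
  choose! k hk using hpd
  have hkpos : ∀ x ∈ F, 0 < k x := by
    intro x hx
    have := (h1 x hx).1
    rw [hk x hx] at this
    exact pos_of_mul_pos_right (this) (by positivity)
  have hcard : F.card ≤ (Finset.Icc (1 : ℤ) ⌊N / (K : ℝ) ^ 2⌋).card := by
    refine Finset.card_le_card_of_injOn k ?_ ?_
    · intro x hx
      have hx' : x ∈ F := hx
      simp only [Finset.coe_Icc, Set.mem_Icc]
      refine ⟨hkpos x hx', ?_⟩
      rw [Int.le_floor, le_div_iff₀ (by positivity)]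
      have e : (f x : ℝ) = (p x : ℝ) ^ 2 * k x := by
        have := hk x hx'
        rw [this]; push_cast; ring
      have h4 : (K : ℝ) ^ 2 ≤ (p x : ℝ) ^ 2 := by
        have : (K : ℝ) ≤ p x := by exact_mod_cast (hp x hx').le
        exact pow_le_pow_left₀ hKr.le this 2
      have h5 : (0 : ℝ) < k x := by exact_mod_cast hkpos x hx'
      calc (k x : ℝ) * (K : ℝ) ^ 2 ≤ (k x : ℝ) * (p x : ℝ) ^ 2 := by gcongr
        _ = (f x : ℝ) := by rw [e]; ring
        _ ≤ N := (h1 x hx').2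
    · intro x hx y hy hxy
      have hx' : x ∈ F := hx
      have hy' : y ∈ F := hy
      apply hf hx hy
      have ex := hk x hx'
      have ey := hk y hy'
      by_contra hne
      have hpne : p x ≠ p y := by
        intro h0
        apply hne
        rw [ex, ey, h0, hxy]
      have h6 := h2 x hx' y hy'
      have h7 : (1 : ℝ) ≤ k x := by exact_mod_cast hkpos x hx'
      have e1 : (f x : ℝ) - f y = k x * ((p x : ℝ) - p y) * ((p x : ℝ) + p y) := by
        have a1 : (f x : ℝ) = (p x : ℝ) ^ 2 * k x := by rw [ex]; push_cast; ring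
        have a2 : (f y : ℝ) = (p y : ℝ) ^ 2 * k x := by
          rw [ey, ← hxy]; push_cast; ring
        rw [a1, a2]; ring
      have h8 : (1 : ℝ) ≤ |(p x : ℝ) - p y| := by
        have : (1 : ℤ) ≤ |(p x : ℤ) - p y| := Int.one_le_abs (sub_ne_zero.2 (by exact_mod_cast hpne))
        exact_mod_cast this
      have h9 : 2 * (K : ℝ) < (p x : ℝ) + p y := by
        have b1 : (K : ℝ) < p x := by exact_mod_cast hp x hx'
        have b2 : (K : ℝ) < p y := by exact_mod_cast hp y hy'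
        linarith
      rw [e1, abs_mul, abs_mul, abs_of_pos (by linarith : (0 : ℝ) < k x),
        abs_of_pos (by linarith : (0 : ℝ) < (p x : ℝ) + p y)] at h6
      have h10 : (1 : ℝ) ≤ k x * |(p x : ℝ) - p y| := by nlinarith
      nlinarith
  have h4 : (0 : ℤ) ≤ ⌊N / (K : ℝ) ^ 2⌋ := Int.floor_nonneg.2 (by positivity)
  have h5 : (F.card : ℝ) ≤ (Finset.Icc (1 : ℤ) ⌊N / (K : ℝ) ^ 2⌋).card := by exact_mod_cast hcard
  rw [Int.card_Icc] at h5
  have h6 : (((⌊N / (K : ℝ) ^ 2⌋ + 1 - 1).toNat : ℕ) : ℝ) = (⌊N / (K : ℝ) ^ 2⌋ : ℝ) := by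
    have : (((⌊N / (K : ℝ) ^ 2⌋ + 1 - 1).toNat : ℤ)) = ⌊N / (K : ℝ) ^ 2⌋ := by
      rw [Int.toNat_of_nonneg (by omega)]; ring
    exact_mod_cast this
  rw [h6] at h5
  exact h5.trans (Int.floor_le _)

/-- At most five prime factors above `K` when `s < K ^ 6`. -/
theorem card_large_primes {s K : ℕ} (hs : 0 < s) (h : s < K ^ 6) :
    (s.primeFactors.filter fun p => K < p).card ≤ 5 := by
  by_contra hcon
  push Not at hcon
  have hK : 0 < K := by
    rcases Nat.eq_zero_or_pos K with h0 | h0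
    · rw [h0] at h; norm_num at h
    · exact h0
  have h1 : K ^ (s.primeFactors.filter fun p => K < p).card ≤
      ∏ p ∈ s.primeFactors.filter (fun p => K < p), p := by
    refine Finset.pow_card_le_prod _ _ _ ?_
    intro p hp
    exact (Finset.mem_filter.1 hp).2.le
  have h2 : ∏ p ∈ s.primeFactors.filter (fun p => K < p), p ≤ ∏ p ∈ s.primeFactors, p := by
    refine Finset.prod_le_prod_of_subset_of_one_le' (Finset.filter_subset _ _) ?_
    intro p hp _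
    exact (Nat.prime_of_mem_primeFactors hp).one_le
  have h3 : ∏ p ∈ s.primeFactors, p ≤ s := Nat.le_of_dvd hs (Nat.prod_primeFactors_dvd s)
  have h4 : K ^ 6 ≤ K ^ (s.primeFactors.filter fun p => K < p).card :=
    Nat.pow_le_pow_right hK hcon
  omega

end Pool.Agent.TH861.SC
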